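import Pool.Agent.N536.ND.Frames

/-! For every `n ≥ 4` the Frenet frame of a nondegenerate closed curve in `ℝⁿ` is longer than
`2π μ(n)`. -/

namespace Pool.Agent.Results.MP_f07be6_gt.FrameLength

open Pool.Agent.N536.ND Real

theorem result : ∀ n : ℕ, 4 ≤ n → ∀ γ : ℝ → EuclideanSpace ℝ (Fin n),
    IsSmoothClosed γ → Nondegenerate γ → 2 * π * (mu n : ℝ) < frameLength γ := by
  intro n hn γ hγ hnd
  rw [mu_eq_one n hn]
  simpa using two_pi_lt_frameLength hγ hnd (by omega)

end Pool.Agent.Results.MP_f07be6_gt.FrameLength
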