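import Pool.Agent.N536.ND.Mu

/-! `μ(n) = 1` for every `n ≥ 4`: the plane circle traversed once already has arbitrarily
`C^∞`-small nondegenerate perturbations in `ℝⁿ`. -/

namespace Pool.Agent.Results.MP_f07be6_gt.MuIsOne

open Pool.Agent.N536.ND

theorem result : ∀ n : ℕ, 4 ≤ n → IsLeast {m : ℕ | 1 ≤ m ∧ Perturbable n m} 1 :=
  fun n hn => isLeast_one n hn

end Pool.Agent.Results.MP_f07be6_gt.MuIsOne
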